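import Pool.Agent.H42.XS.Fin
import Pool.Agent.H14.XS.CLA
import Pool.Agent.H14.XS.EX
import Pool.Agent.H77.XS.SIZ
import Pool.Agent.H77.XS.CORX
import Pool.Agent.H37.XS.AVA
import Pool.Agent.H37.XS.MATX
import Pool.Agent.H96.XS.RED
import Pool.Agent.H3.XS.UP
import Pool.Agent.H60.SYM.ShiftG
import Pool.Agent.H19.SYM.HOEF

/-!
Circuits symmetric under exchanges of literals (MP_c62aed_lc): all modules together.
-/

namespace Pool.Agent.H42.XS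

theorem main : Main :=
  pf_FINX (Pool.Agent.H77.XS.pf_SIZ Pool.Agent.H14.XS.pf_CLA)
    (Pool.Agent.H77.XS.CORX.pf_CORX Pool.Agent.H14.XS.pf_EX Pool.Agent.H14.XS.pf_CLA)
    (Pool.Agent.H37.XS.pf_AVA Pool.Agent.H14.XS.pf_EX) Pool.Agent.H37.XS.pf_MATX
    Pool.Agent.H96.XS.pf_RED (Pool.Agent.H60.SYM.shiftG Pool.Agent.H19.SYM.hoef)
    (Pool.Agent.H3.XS.pf_UP Pool.Agent.H14.XS.pf_EX)

end Pool.Agent.H42.XS
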