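import Pool.Agent.H42.XS.Targets

/-!
Circuits symmetric under exchanges of literals (MP_c62aed_lc): assembly.
-/

namespace Pool.Agent.H42.XS

open Finset Pool.Agent.H60.SYM

theorem log_two_lo : (0.6931 : ℝ) < Real.log 2 := by
  have := Real.log_two_gt_d9
  linarith

/-- for small `k` the bound is trivial -/
theorem ten_le (k : ℕ) (hk : 2 ≤ k) (h : 8 * Real.log k ^ 2 / k < 1) : 10 ≤ k := by
  by_contra hcon
  push Not at hcon
  have hk0 : (0 : ℝ) < k := by
    have : 0 < k := by omega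
    exact_mod_cast this
  rw [div_lt_one hk0] at h
  have hl2 := log_two_lo
  by_cases h4 : 4 ≤ k
  · have h1 : Real.log 4 ≤ Real.log k :=
      Real.log_le_log (by norm_num) (by exact_mod_cast h4)
    have h2 : Real.log 4 = 2 * Real.log 2 := by
      rw [show (4 : ℝ) = 2 ^ 2 by norm_num, Real.log_pow]
      norm_num
    have h3 : (k : ℝ) ≤ 9 := by
      have : k ≤ 9 := by omega
      exact_mod_cast this
    nlinarith
  · have h1 : Real.log 2 ≤ Real.log k :=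
      Real.log_le_log (by norm_num) (by exact_mod_cast hk)
    have h3 : (k : ℝ) ≤ 3 := by
      have : k ≤ 3 := by omega
      exact_mod_cast this
    nlinarith

theorem log_ten_lo : (11 / 5 : ℝ) ≤ Real.log 10 := by
  rw [Real.le_log_iff_exp_le (by norm_num)]
  have h1 := Real.exp_one_lt_d9
  have h2 : Real.exp (11 / 5) ^ 5 ≤ (10 : ℝ) ^ 5 := by
    rw [← Real.exp_nat_mul]
    have e : ((5 : ℕ) : ℝ) * (11 / 5) = ((11 : ℕ) : ℝ) * 1 := by norm_num
    rw [e, Real.exp_nat_mul]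
    calc Real.exp 1 ^ 11 ≤ 2.7182818286 ^ 11 :=
          pow_le_pow_left₀ (Real.exp_pos _).le h1.le 11
      _ ≤ 10 ^ 5 := by norm_num
  exact (pow_le_pow_iff_left₀ (Real.exp_pos _).le (by norm_num) (by norm_num)).1 h2

theorem log_17_le : Real.log 17 ≤ 2.8364 := by
  have h1 : Real.log 17 = 4 * Real.log 2 + Real.log (17 / 16) := by
    rw [show (17 : ℝ) = 2 ^ 4 * (17 / 16) by norm_num, Real.log_mul (by norm_num) (by norm_num),
      Real.log_pow]
    norm_num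
  have h2 := Real.log_le_sub_one_of_pos (show (0 : ℝ) < 17 / 16 by norm_num)
  have h3 := Real.log_two_lt_d9
  rw [h1]
  norm_num at h2 ⊢
  linarith

/-- the inequality between the constants -/
theorem consts (k : ℕ) (hk : 10 ≤ k) :
    10 / 9 * (Real.log k / k) * Real.log (Real.exp 1 * ((16 * k ^ 2 + 1 : ℕ) : ℝ) /
      (10 / 9 * (Real.log k / k))) + Real.exp (-(9 / 10 * (10 / 9 * (Real.log k / k) * k))) <
      8 * Real.log k ^ 2 / k * Real.log 2 := by
  have hk' : (10 : ℝ) ≤ k := by exact_mod_cast hk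
  have hk0 : (0 : ℝ) < k := by linarith
  obtain ⟨L, hL⟩ : ∃ L : ℝ, L = Real.log k := ⟨_, rfl⟩
  have hL1 : 11 / 5 ≤ L := by
    rw [hL]
    exact log_ten_lo.trans (Real.log_le_log (by norm_num) hk')
  rw [← hL]
  have hL0 : 0 < L := by linarith
  have he : Real.exp (-(9 / 10 * (10 / 9 * (L / k) * k))) = 1 / k := by
    have e : 9 / 10 * (10 / 9 * (L / k) * k) = L := by
      field_simp
    rw [e, Real.exp_neg, hL, Real.exp_log hk0, one_div]
  rw [he]
  have h17 := log_17_le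
  have hlog : Real.log (Real.exp 1 * ((16 * k ^ 2 + 1 : ℕ) : ℝ) / (10 / 9 * (L / k))) ≤
      3.8364 + 3 * L := by
    have h1 : Real.exp 1 * ((16 * k ^ 2 + 1 : ℕ) : ℝ) / (10 / 9 * (L / k)) ≤
        Real.exp 1 * (17 * (k : ℝ) ^ 3) := by
      push_cast
      rw [div_le_iff₀ (by positivity)]
      have h2 : 16 * (k : ℝ) ^ 2 + 1 ≤ 17 * (k : ℝ) ^ 2 := by nlinarith
      have h3 : 17 * (k : ℝ) ^ 2 ≤ 17 * (k : ℝ) ^ 3 * (10 / 9 * (L / k)) := by
        have e : 17 * (k : ℝ) ^ 3 * (10 / 9 * (L / k)) = 17 * (k : ℝ) ^ 2 * (10 / 9 * L) := by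
          field_simp
        rw [e]
        exact le_mul_of_one_le_right (by positivity) (by linarith)
      calc Real.exp 1 * (16 * (k : ℝ) ^ 2 + 1) ≤
            Real.exp 1 * (17 * (k : ℝ) ^ 3 * (10 / 9 * (L / k))) := by
            gcongr
            exact h2.trans h3
        _ = _ := by ring
    have h4 : Real.log (Real.exp 1 * (17 * (k : ℝ) ^ 3)) = 1 + (Real.log 17 + 3 * L) := by
      rw [Real.log_mul (Real.exp_pos _).ne' (by positivity), Real.log_exp,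
        Real.log_mul (by norm_num) (by positivity), Real.log_pow, hL]
      norm_num
    have h5 := Real.log_le_log (by positivity) h1
    rw [h4] at h5
    linarith
  have h6 : 10 / 9 * (L / k) * Real.log (Real.exp 1 * ((16 * k ^ 2 + 1 : ℕ) : ℝ) /
      (10 / 9 * (L / k))) ≤ 10 / 9 * (L / k) * (3.8364 + 3 * L) := by gcongr
  have hl2 := log_two_lo
  have h7 : 10 / 9 * L * (3.8364 + 3 * L) + 1 < 8 * L ^ 2 * Real.log 2 := by
    have h8 : 8 * L ^ 2 * 0.6931 ≤ 8 * L ^ 2 * Real.log 2 := by gcongr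
    nlinarith
  calc _ ≤ 10 / 9 * (L / k) * (3.8364 + 3 * L) + 1 / k := by linarith
    _ = (10 / 9 * L * (3.8364 + 3 * L) + 1) / k := by ring
    _ < 8 * L ^ 2 * Real.log 2 / k := by gcongr
    _ = _ := by ring

theorem main_low (hSIZ : T_SIZ) (hCORX : T_CORX) (hAVA : T_AVA) (hMATX : T_MATX) (hRED : T_RED)
    (hSHIFT : T_SHIFTG) (k : ℕ) (hk : 2 ≤ k) : ∃ c n₀ : ℕ, ∀ n ≥ n₀,
    ∀ (U : Submodule (ZMod 2) (Fin n → ZMod 2)) (s : ℕ)
    (C : Circuit (Cl n k) s), Sym U C → Right (c * n) C →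
    (2 : ℝ) ^ ((Module.finrank (ZMod 2) U : ℝ) - 8 * Real.log k ^ 2 / k * n) ≤ s := by
  by_cases htriv : 1 ≤ 8 * Real.log k ^ 2 / k
  · refine ⟨0, 0, fun n _ U s C _ _ => ?_⟩
    have h1 : Module.finrank (ZMod 2) U ≤ n := by
      have := Submodule.finrank_le U
      rwa [Module.finrank_fin_fun] at this
    have h1' : (Module.finrank (ZMod 2) U : ℝ) ≤ n := by exact_mod_cast h1
    have h2 : (n : ℝ) ≤ 8 * Real.log k ^ 2 / k * n :=
      le_mul_of_one_le_left (Nat.cast_nonneg n) htriv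
    have h3 : (2 : ℝ) ^ ((Module.finrank (ZMod 2) U : ℝ) - 8 * Real.log k ^ 2 / k * n) ≤ 1 :=
      Real.rpow_le_one_of_one_le_of_nonpos (by norm_num) (by linarith)
    have h4 : 1 ≤ s := by
      have := C.out.pos
      omega
    exact h3.trans (by exact_mod_cast h4)
  push Not at htriv
  have hk10 := ten_le k hk htriv
  obtain ⟨d, rfl⟩ : ∃ d, k = d + 1 := ⟨k - 1, by omega⟩
  obtain ⟨k, hkd⟩ : ∃ k : ℕ, k = d + 1 := ⟨_, rfl⟩
  have hk' : (10 : ℝ) ≤ k := by rw [hkd]; exact_mod_cast hk10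
  have hk0 : (0 : ℝ) < k := by linarith
  have hL1 : 11 / 5 ≤ Real.log k := log_ten_lo.trans (Real.log_le_log (by norm_num) hk')
  have hcst := consts k (by omega)
  rw [← hkd] at htriv
  obtain ⟨L, hL⟩ : ∃ L : ℝ, L = Real.log k := ⟨_, rfl⟩
  rw [← hL] at hL1 hcst htriv
  obtain ⟨α, hα⟩ : ∃ α : ℝ, α = 10 / 9 * (L / k) := ⟨_, rfl⟩
  obtain ⟨η, hη⟩ : ∃ η : ℝ, η = 8 * L ^ 2 / k := ⟨_, rfl⟩
  rw [← hα, ← hη] at hcst
  have hL0 : 0 < L := by linarith
  have hα0 : 0 < α := by rw [hα]; positivity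
  have hη0 : 0 < η := by rw [hη]; positivity
  have hα4 : α ≤ 1 / 4 := by
    rw [div_lt_one hk0] at htriv
    rw [hα, mul_div_assoc', div_le_iff₀ hk0]
    nlinarith
  obtain ⟨K, hK⟩ : ∃ K : ℕ, K = 16 * k ^ 2 := ⟨_, rfl⟩
  obtain ⟨n₁, hn₁⟩ := hMATX d (K + 1) α η (by omega) hα0 hα4 hη0 (by
    rw [hK]
    have e : ((d : ℝ) + 1) = k := by rw [hkd]; push_cast; ring
    rw [e]
    exact hcst)
  refine ⟨K * 2 ^ d, max n₁ (⌈2 / α⌉₊ + 1), fun n hn U s C hU hR => ?_⟩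
  have hn1 : n₁ ≤ n := (le_max_left _ _).trans hn
  have hn2 : ⌈2 / α⌉₊ + 1 ≤ n := (le_max_right _ _).trans hn
  have hn0 : 0 < n := by omega
  have hnα : 2 ≤ α * n := by
    have h1 : 2 / α ≤ n := (Nat.le_ceil _).trans (by exact_mod_cast (by omega : ⌈2 / α⌉₊ ≤ n))
    rw [div_le_iff₀ hα0] at h1
    linarith
  rw [← hkd, ← hL, ← hη]
  by_contra hcon
  push Not at hcon
  classical
  obtain ⟨B, hB⟩ : ∃ B : Finset (Fin n → ZMod 2), B = univ.filter fun z => Avail U C z := ⟨_, rfl⟩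
  have hBmem : ∀ z, z ∈ B ↔ Avail U C z := by
    intro z
    rw [hB, mem_filter]
    simp
  have hBcard : (B.card : ℝ) ≤ 2 ^ ((1 - η) * n) := by
    have h1 := hAVA n (d + 1) s U C hU
    have h2 : Nat.card {z // Avail U C z} = B.card := by
      rw [Nat.card_eq_fintype_card, Fintype.card_subtype, hB]
    rw [h2] at h1
    refine h1.trans ?_
    have h3 : (1 - η) * (n : ℝ) = ((Module.finrank (ZMod 2) U : ℝ) - η * n) +
        ((n : ℝ) - Module.finrank (ZMod 2) U) := by ring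
    rw [h3, Real.rpow_add (by norm_num)]
    exact mul_le_mul_of_nonneg_right hcon.le (Real.rpow_nonneg (by norm_num) _)
  obtain ⟨e, he, hey⟩ := hn₁ n hn1 B hBcard
  obtain ⟨θ, hθ⟩ : ∃ θ : ℕ, θ = ⌊α * n / 2⌋₊ := ⟨_, rfl⟩
  have hθ1 : 1 ≤ θ := by
    rw [hθ]
    exact Nat.le_floor (by push_cast; linarith)
  have hθ2 : (θ : ℝ) ≤ α * n / 2 := by
    rw [hθ]
    exact Nat.floor_le (by positivity)
  have hθ3 : α * n / 2 < (θ : ℝ) + 1 := by
    rw [hθ]
    exact Nat.lt_floor_add_one _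
  have hθ4 : 2 * θ ≤ n := by
    have h1 : (2 * θ : ℝ) ≤ n := by
      have : α * n ≤ 1 / 4 * n := mul_le_mul_of_nonneg_right hα4 (Nat.cast_nonneg n)
      have h2 : (0 : ℝ) ≤ n := Nat.cast_nonneg n
      linarith
    exact_mod_cast h1
  obtain ⟨e', hD, hp, hav⟩ := hRED n d K θ e B U hθ1 hθ4 he
    (fun z hz => (hBmem z).2 ⟨C.out, fun f hf _ _ _ => hz f hf⟩)
    (fun y h1 h2 => hey y (by
      have h3 : (θ : ℝ) + 1 ≤ wt y := by exact_mod_cast h1
      linarith) (by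
      have h3 : (wt y : ℝ) ≤ 2 * θ := by exact_mod_cast h2
      linarith))
  obtain ⟨c, -, hc⟩ := hSHIFT (1 / (2 * k)) (by positivity) (by
      rw [div_le_div_iff₀ (by positivity) (by norm_num)]
      linarith) K (by
      rw [hK]
      push_cast
      have e : 4 / (1 / (2 * (k : ℝ))) ^ 2 = 16 * (k : ℝ) ^ 2 := by
        field_simp
        ring
      rw [e]) n hn0 (fun x i => ∑ p, toZ (x (e' i p))) ∅ (by simp)
  have heq := hCORX (K * n) n d s θ e' U C c hD hU hθ1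
    (fun y hy hw => hp y hy (by omega)) (fun y h1 h2 h3 => hav y h1 h2 ((hBmem _).2 h3))
  obtain ⟨-, hw0, -, hsat⟩ := hSIZ (K * n) n d e' hD 0
  obtain ⟨hsz0, -, -, -⟩ := hSIZ (K * n) n d e' hD 0
  obtain ⟨hsz, hw, hv, -⟩ := hSIZ (K * n) n d e' hD c
  have hm : K * n * 2 ^ d = K * 2 ^ d * n := by ring
  rw [hm] at hsz0 hsz
  have htrue := (hR (fml e' 0) hsz0 hw0).1 hsat
  have hfalse := (hR (fml e' c) hsz hw).2 (fun x => by
    rw [hv x]
    refine le_trans (le_of_eq ?_) (hc x)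
    push_cast
    rw [show ((d : ℝ) + 1) = k by rw [hkd]; push_cast; ring, ← hkd]
    rw [show (2 : ℝ) ^ k = 2 ^ d * 2 by rw [hkd, pow_succ]]
    field_simp)
  rw [htrue, hfalse] at heq
  exact absurd heq (by simp)

theorem pf_FINX : T_FINX := fun hSIZ hCORX hAVA hMATX hRED hSHIFT hUP =>
  ⟨fun k hk => main_low hSIZ hCORX hAVA hMATX hRED hSHIFT k hk, hUP⟩

end Pool.Agent.H42.XS
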