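import Pool.Agent.H60.SYM.Stmt

/-!
Circuits for satisfiability that are symmetric under exchanges of literals only (MP_c62aed_lc): the
definitions used by the statement. Circuits, values of gates and automorphisms are those of
`Pool/Agent/H60/SYM/Stmt.lean`.
-/

namespace Pool.Agent.H42.XS

open Finset Pool.Agent.H60.SYM

/-- Clauses with at most `k` literals in `n` variables. The literal `(v, b)` is true under the
assignment `x` if `x v = b`. -/
abbrev Cl (n k : ℕ) : Type := {D : Finset (Fin n × Bool) // D.card ≤ k}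

/-- exchange of the two literals of every variable `v` with `f v = 1` -/
def exL {n : ℕ} (f : Fin n → ZMod 2) (l : Fin n × Bool) : Fin n × Bool :=
  (l.1, xor (decide (f l.1 = 1)) l.2)

/-- the exchange `f` applied to a clause -/
def exch {n k : ℕ} (f : Fin n → ZMod 2) (D : Cl n k) : Cl n k :=
  ⟨D.1.image (exL f), card_image_le.trans D.2⟩

/-- all literals of the clause are false under `x` -/
def Violated {n k : ℕ} (x : Fin n → Bool) (D : Cl n k) : Prop := ∀ l ∈ D.1, x l.1 ≠ l.2

/-- A formula `φ` is given by the set of its clauses: `φ D` is true if `D` is a clause of `φ`. -/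
def Satisfiable {n k : ℕ} (φ : Cl n k → Bool) : Prop := ∃ x, ∀ D, φ D = true → ¬ Violated x D

/-- number of clauses -/
noncomputable def size {n k : ℕ} (φ : Cl n k → Bool) : ℕ := Nat.card {D // φ D = true}

/-- number of clauses violated by `x` -/
noncomputable def viol {n k : ℕ} (φ : Cl n k → Bool) (x : Fin n → Bool) : ℕ :=
  Nat.card {D // φ D = true ∧ Violated x D}

/-- every exchange in `U` extends to an automorphism of the circuit -/
def Sym {n k s : ℕ} (U : Submodule (ZMod 2) (Fin n → ZMod 2)) (C : Circuit (Cl n k) s) : Prop :=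
  ∀ f ∈ U, ∃ a, C.Extends (exch f) a

/-- The circuit is right on all formulas with exactly `m` clauses, each with exactly `k` literals
and `k` different variables, that are satisfiable or such that every assignment violates at least
`(1 - 1 / k) m / 2 ^ k` clauses. -/
def Right {n k s : ℕ} (m : ℕ) (C : Circuit (Cl n k) s) : Prop :=
  ∀ φ : Cl n k → Bool, size φ = m → (∀ D, φ D = true → (D.1.image Prod.fst).card = k) →
    (Satisfiable φ → C.val φ C.out = true) ∧
    ((∀ x, (1 - 1 / k) * m / 2 ^ k ≤ (viol φ x : ℝ)) → C.val φ C.out = false)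

/-- The final statement. -/
def Main : Prop :=
  (∀ k : ℕ, 2 ≤ k → ∃ c n₀ : ℕ, ∀ n ≥ n₀, ∀ (U : Submodule (ZMod 2) (Fin n → ZMod 2)) (s : ℕ)
    (C : Circuit (Cl n k) s), Sym U C → Right (c * n) C →
    (2 : ℝ) ^ ((Module.finrank (ZMod 2) U : ℝ) - 8 * Real.log k ^ 2 / k * n) ≤ s) ∧
  ∀ (n k : ℕ) (U : Submodule (ZMod 2) (Fin n → ZMod 2)), ∃ (s : ℕ) (C : Circuit (Cl n k) s),
    Sym U C ∧ (∀ φ, C.val φ C.out = true ↔ Satisfiable φ) ∧
    s ≤ 2 ^ Module.finrank (ZMod 2) U + (2 * n + 1) ^ k + 1

end Pool.Agent.H42.XS
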