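import Pool.Agent.H60.SYM.Stmt

/-!
Circuits for satisfiability that are symmetric under permutations of the clauses and under exchanges
of literals, but not under permutations of variables (MP_c62aed_lc): the definitions used by the
statement. Circuits, values of gates, automorphisms and formulas are those of
`Pool/Agent/H60/SYM/Stmt.lean`.
-/

namespace Pool.Agent.H42.XS

open Finset Pool.Agent.H60.SYM

/-- Every permutation of the clauses combined with the exchange of the two literals of every
variable `v` with `f v = 1`, for every `f` in `U`, extends to an automorphism of the circuit. -/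
def SymM {m n s : ℕ} (U : Submodule (ZMod 2) (Fin n → ZMod 2)) (C : Circuit (Pos m n) s) : Prop :=
  ∀ (π : Equiv.Perm (Fin m)), ∀ f ∈ U, ∃ a, C.Extends (move π 1 fun v => decide (f v = 1)) a

/-- The circuit is right on all formulas of width at most `k` that are satisfiable or such that every
assignment violates at least `(1 - 1 / k) m / 2 ^ k` clauses. -/
def RightM {m n s : ℕ} (k : ℕ) (C : Circuit (Pos m n) s) : Prop :=
  ∀ φ, WidthLE k φ → (Pool.Agent.H60.SYM.Satisfiable φ → C.val φ C.out = true) ∧
    ((∀ x, (1 - 1 / k) * m / 2 ^ k ≤ (Nat.card {j // Violates φ x j} : ℝ)) →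
      C.val φ C.out = false)

/-- The final statement. -/
def MainM : Prop :=
  (∀ k : ℕ, 2 ≤ k → ∃ c n₀ : ℕ, ∀ n ≥ n₀, ∀ m ≥ c * n,
    ∀ (U : Submodule (ZMod 2) (Fin n → ZMod 2)) (s : ℕ) (C : Circuit (Pos m n) s),
      SymM U C → RightM k C →
      (2 : ℝ) ^ ((Module.finrank (ZMod 2) U : ℝ) - 8 * Real.log k ^ 2 / k * n) ≤ s) ∧
  ∀ (m n k : ℕ) (U : Submodule (ZMod 2) (Fin n → ZMod 2)), ∃ (s : ℕ) (C : Circuit (Pos m n) s),
    SymM U C ∧ (∀ φ, WidthLE k φ → (C.val φ C.out = true ↔ Pool.Agent.H60.SYM.Satisfiable φ)) ∧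
    s ≤ 2 ^ Module.finrank (ZMod 2) U + m * (2 * n + 1) ^ k + 2 * m * n + 1

end Pool.Agent.H42.XS
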