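import Pool.Agent.H42.XS.Stmt
import Pool.Agent.H60.SYM.Targets2

/-!
Circuits symmetric under exchanges of literals (MP_c62aed_lc): module targets.
-/

namespace Pool.Agent.H42.XS

open Finset Pool.Agent.H60.SYM

/-- the clause of the equation with the variables `e i 0, ..., e i d` that forbids the values `a` -/
def cla {n d : ℕ} (v : Fin (d + 1) → Fin n) (a : Fin (d + 1) → ZMod 2) : Cl n (d + 1) :=
  ⟨univ.image fun p => (v p, toB (a p + 1)),
    card_image_le.trans (by rw [card_univ, Fintype.card_fin])⟩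

/-- formula of the system `∑ p, x (e i p) = c i` -/
noncomputable def fml {M n d : ℕ} (e : Fin M → Fin (d + 1) → Fin n) (c : Fin M → ZMod 2) :
    Cl n (d + 1) → Bool :=
  fun D => by
    classical
    exact decide (∃ i a, ∑ p, a p = c i + 1 ∧ D = cla (e i) a)

/-- the variables of an equation are different, different equations have different variable sets -/
def Dist {M n d : ℕ} (e : Fin M → Fin (d + 1) → Fin n) : Prop :=
  (∀ i, Function.Injective (e i)) ∧
    ∀ i j, (univ.image (e i) : Finset (Fin n)) = univ.image (e j) → i = j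

/-- the pairing of vectors -/
def pair {n : ℕ} (z f : Fin n → ZMod 2) : ZMod 2 := ∑ v, z v * f v

/-- vectors orthogonal to `U` -/
def perp {n : ℕ} (U : Submodule (ZMod 2) (Fin n → ZMod 2)) (z : Fin n → ZMod 2) : Prop :=
  ∀ f ∈ U, pair z f = 0

/-- the vector `z`, as a functional on `U`, vanishes on the stabiliser of a gate -/
def Avail {n k s : ℕ} (U : Submodule (ZMod 2) (Fin n → ZMod 2)) (C : Circuit (Cl n k) s)
    (z : Fin n → ZMod 2) : Prop :=
  ∃ g, ∀ f ∈ U, ∀ a, C.Extends (exch f) a → a g = g → pair z f = 0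

/-! ### The formulas -/

/-- EX: the action of the exchanges on clauses -/
def T_EX : Prop :=
  ∀ (n k : ℕ), (∀ (f g : Fin n → ZMod 2) (D : Cl n k), exch (f + g) D = exch f (exch g D)) ∧
    (∀ D : Cl n k, exch 0 D = D) ∧
    (∀ (f : Fin n → ZMod 2) (φ : Cl n k → Bool),
      Satisfiable (fun D => φ (exch f D)) ↔ Satisfiable φ)

/-- CLA: clauses of equations -/
def T_CLA : Prop :=
  ∀ (n d : ℕ),
    (∀ (v w : Fin (d + 1) → Fin n) (a b : Fin (d + 1) → ZMod 2), Function.Injective v →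
      cla v a = cla w b → (univ.image v : Finset (Fin n)) = univ.image w ∧ (v = w → a = b)) ∧
    (∀ (v : Fin (d + 1) → Fin n) (a : Fin (d + 1) → ZMod 2) (f : Fin n → ZMod 2),
      exch f (cla v a) = cla v fun p => a p + f (v p)) ∧
    (∀ (v : Fin (d + 1) → Fin n) (a : Fin (d + 1) → ZMod 2), Function.Injective v →
      ((cla v a).1.image Prod.fst).card = d + 1) ∧
    (∀ (v : Fin (d + 1) → Fin n) (a : Fin (d + 1) → ZMod 2) (x : Fin n → Bool),
      Violated x (cla v a) ↔ ∀ p, toZ (x (v p)) = a p)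

/-- SIZ: numbers of clauses and of violated clauses of the formulas -/
def T_SIZ : Prop :=
  ∀ (M n d : ℕ) (e : Fin M → Fin (d + 1) → Fin n), Dist e → ∀ c : Fin M → ZMod 2,
    size (fml e c) = M * 2 ^ d ∧
    (∀ D, fml e c D = true → (D.1.image Prod.fst).card = d + 1) ∧
    (∀ x, viol (fml e c) x = (univ.filter fun i => ∑ p, toZ (x (e i p)) ≠ c i).card) ∧
    Satisfiable (fml e 0)

/-- CORE: a circuit symmetric under `U` does not separate the two formulas -/
def T_CORX : Prop :=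
  ∀ (M n d s θ : ℕ) (e : Fin M → Fin (d + 1) → Fin n) (U : Submodule (ZMod 2) (Fin n → ZMod 2))
    (C : Circuit (Cl n (d + 1)) s) (c : Fin M → ZMod 2), Dist e → Sym U C → 1 ≤ θ →
    (∀ y : Fin M → ZMod 2, y ≠ 0 → wt y ≤ θ → ¬ perp U (comb e y)) →
    (∀ y : Fin M → ZMod 2, θ < wt y → wt y ≤ 2 * θ → ¬ Avail U C (comb e y)) →
    C.val (fml e 0) C.out = C.val (fml e c) C.out

/-! ### Counting -/

/-- AVA: the number of available vectors -/
def T_AVA : Prop :=
  ∀ (n k s : ℕ) (U : Submodule (ZMod 2) (Fin n → ZMod 2)) (C : Circuit (Cl n k) s), Sym U C →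
    (Nat.card {z // Avail U C z} : ℝ) ≤ s * 2 ^ ((n : ℝ) - Module.finrank (ZMod 2) U)

/-- MATX: a random system avoids a given set `B` of vectors -/
def T_MATX : Prop :=
  ∀ (d K : ℕ) (α η : ℝ), 1 ≤ K → 0 < α → α ≤ 1 / 4 → 0 < η →
    α * Real.log (Real.exp 1 * K / α) + Real.exp (-(9 / 10 * (α * (d + 1)))) <
      η * Real.log 2 →
    ∃ n₀ : ℕ, ∀ n ≥ n₀, ∀ B : Finset (Fin n → ZMod 2), (B.card : ℝ) ≤ 2 ^ ((1 - η) * n) →
      ∃ e : Fin (K * n) → Fin (d + 1) → Fin n, (∀ i, Function.Injective (e i)) ∧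
        ∀ y : Fin (K * n) → ZMod 2, α * n / 2 ≤ wt y → wt y ≤ α * n → comb e y ∉ B

/-- RED: the equations in small relations are dropped -/
def T_RED : Prop :=
  ∀ (n d K θ : ℕ) (e : Fin ((K + 1) * n) → Fin (d + 1) → Fin n) (B : Finset (Fin n → ZMod 2))
    (U : Submodule (ZMod 2) (Fin n → ZMod 2)), 1 ≤ θ → 2 * θ ≤ n →
    (∀ i, Function.Injective (e i)) → (∀ z, perp U z → z ∈ B) →
    (∀ y : Fin ((K + 1) * n) → ZMod 2, θ < wt y → wt y ≤ 2 * θ → comb e y ∉ B) →
    ∃ e' : Fin (K * n) → Fin (d + 1) → Fin n, Dist e' ∧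
      (∀ y : Fin (K * n) → ZMod 2, y ≠ 0 → wt y ≤ 2 * θ → ¬ perp U (comb e' y)) ∧
      ∀ y : Fin (K * n) → ZMod 2, θ < wt y → wt y ≤ 2 * θ → comb e' y ∉ B

/-! ### The upper bound, assembly -/

/-- UP: the circuit that tries all exchanges -/
def T_UP : Prop :=
  ∀ (n k : ℕ) (U : Submodule (ZMod 2) (Fin n → ZMod 2)), ∃ (s : ℕ) (C : Circuit (Cl n k) s),
    Sym U C ∧ (∀ φ, C.val φ C.out = true ↔ Satisfiable φ) ∧
    s ≤ 2 ^ Module.finrank (ZMod 2) U + (2 * n + 1) ^ k + 1

/-- FINX: assembly -/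
def T_FINX : Prop := T_SIZ → T_CORX → T_AVA → T_MATX → T_RED → T_SHIFTG → T_UP → Main

end Pool.Agent.H42.XS
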