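import Pool.Agent.H42.XS.StmtM
import Pool.Agent.H42.XS.Targets

/-!
Circuits symmetric under permutations of the clauses and exchanges of literals (MP_c62aed_lc):
module targets for the incidence matrix encoding.
-/

namespace Pool.Agent.H42.XS

open Finset Pool.Agent.H60.SYM

/-- the perturbation caused by translations in the blocks -/
def pert {M n d : ℕ} (e : Fin M → Fin (d + 1) → Fin n) (R : Fin M → Fin d → ZMod 2) (v : Fin n) :
    ZMod 2 :=
  ∑ i, ∑ p : Fin d, if e i p.succ = v then R i p else 0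

/-- number of nonzero rows -/
noncomputable def rw0 {M d : ℕ} (R : Fin M → Fin d → ZMod 2) : ℕ := by
  classical
  exact (univ.filter fun i => R i ≠ 0).card

/-- the vector `z`, with suitable coefficients `r` on the blocks, is a functional that vanishes on the
stabiliser of a gate in the group of translations in the blocks and exchanges in `U` -/
def AvM {m n d M T s : ℕ} {P : Type} (U : Submodule (ZMod 2) (Fin n → ZMod 2))
    (E : Fin m ≃ (Blocks M T × (Fin d → ZMod 2)) ⊕ P) (C : Circuit (Pos m n) s)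
    (z : Fin n → ZMod 2) : Prop :=
  ∃ (g : Fin s) (r : Blocks M T → Fin d → ZMod 2), ∀ κ, ∀ f ∈ U, ∀ a,
    C.Extends (act E ((κ, f) : VV n d M T)) a → a g = g →
      ∑ b, ∑ p, r b p * κ b p + pair z f = 0

/-- CFO: for fixed `y` and `R` few systems have a prescribed value of `comb e y + pert e R` -/
def T_CFO : Prop :=
  ∀ (n d M : ℕ) (y : Fin M → ZMod 2) (R : Fin M → Fin d → ZMod 2) (z : Fin n → ZMod 2),
    d + 1 ≤ n →
    (Nat.card {e : Fin M → Fin (d + 1) → Fin n // Partite e ∧ comb e y + pert e R = z} : ℝ) ≤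
      Nat.card {e : Fin M → Fin (d + 1) → Fin n // Partite e} *
        (2 ^ (d + 1) / 2 ^ n *
          (1 + Real.exp (-(2 * (wt y - rw0 R : ℕ) * (d + 1) / (n + d + 1)))) ^ n)

/-- MATM: a random system avoids a given set `B`, also after perturbations -/
def T_MATM : Prop :=
  ∀ (d K : ℕ) (α η : ℝ), 1 ≤ K → 0 < α → α ≤ 1 / 4 → 0 < η →
    α * Real.log (Real.exp 1 * K / α) + Real.exp (-(9 / 10 * (α * (d + 1)))) <
      η * Real.log 2 →
    ∃ β : ℝ, 0 < β ∧ β ≤ α / 16 ∧ ∃ n₀ : ℕ, ∀ n ≥ n₀, ∀ B : Finset (Fin n → ZMod 2),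
      (B.card : ℝ) ≤ 2 ^ ((1 - η) * n) →
      ∃ e : Fin (K * n) → Fin (d + 1) → Fin n, (∀ i, Function.Injective (e i)) ∧
        ∀ (y : Fin (K * n) → ZMod 2) (R : Fin (K * n) → Fin d → ZMod 2),
          α * n / 2 ≤ wt y + β * n → wt y ≤ α * n → rw0 R ≤ β * n → comb e y + pert e R ∉ B

/-- AVM: the number of available vectors -/
def T_AVM : Prop :=
  ∀ (m n d M T s : ℕ) (P : Type) (U : Submodule (ZMod 2) (Fin n → ZMod 2))
    (E : Fin m ≃ (Blocks M T × (Fin d → ZMod 2)) ⊕ P) (C : Circuit (Pos m n) s), SymM U C →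
    (Nat.card {z // AvM U E C z} : ℝ) ≤ s * 2 ^ ((n : ℝ) - Module.finrank (ZMod 2) U)

/-- ROWM: translations in the blocks and permutations of the blocks -/
def T_ROWM : Prop :=
  ∀ (m n s d : ℕ) (B P : Type) [Fintype B] [DecidableEq B]
    (E : Fin m ≃ (B × (Fin d → ZMod 2)) ⊕ P) (C : Circuit (Pos m n) s),
    (∀ π : Equiv.Perm (Fin m), ∃ a, C.Extends (move π 1 fun _ => false) a) →
    ∀ (g : Fin s) (r : B → Fin d → ZMod 2),
      (∀ (κ : B → Fin d → ZMod 2) a, C.Extends (move (rowPerm E κ) 1 fun _ => false) a →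
        a g = g → ∑ b, ∑ p, r b p * κ b p = 0) →
      (Fintype.card B).choose (univ.filter fun b => r b ≠ 0).card ≤ s

/-- CORM: a circuit symmetric under the clauses and `U` does not separate the two formulas -/
def T_CORM : Prop :=
  ∀ (m n s d M T : ℕ) (P : Type) (e : Fin M → Fin (d + 1) → Fin n)
    (E : Fin m ≃ (Blocks M T × (Fin d → ZMod 2)) ⊕ P) (v₀ : Fin n) (c : Fin M → ZMod 2)
    (U : Submodule (ZMod 2) (Fin n → ZMod 2)) (C : Circuit (Pos m n) s) (θ q : ℕ), SymM U C →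
    (∀ i, Function.Injective (e i)) → 2 ≤ θ →
    (∀ t, q ≤ t → t ≤ 2 * θ → s < (M * T).choose t) →
    (∀ (y : Fin M → ZMod 2) (R : Fin M → Fin d → ZMod 2), θ < wt y + q → wt y ≤ 2 * θ →
      rw0 R < q → ¬ AvM U E C (comb e y + pert e R)) →
    (∀ y : Fin M → ZMod 2, wt y ≤ θ → perp U (comb e y) → ∑ i, y i * c i = 0) →
    C.val (inst e E v₀ 0) C.out = C.val (inst e E v₀ c) C.out

/-- SUPM: the small relations live on few equations -/
def T_SUPM : Prop :=
  ∀ (n d M θ : ℕ) (e : Fin M → Fin (d + 1) → Fin n) (U : Submodule (ZMod 2) (Fin n → ZMod 2)),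
    (∀ y : Fin M → ZMod 2, θ < wt y → wt y ≤ 2 * θ → ¬ perp U (comb e y)) →
    ∃ J : Finset (Fin M), J.card ≤ 2 * θ ∧
      ∀ y : Fin M → ZMod 2, wt y ≤ θ → perp U (comb e y) → ∀ i ∉ J, y i = 0

/-- UPM: the circuit that tries all exchanges -/
def T_UPM : Prop :=
  ∀ (m n k : ℕ) (U : Submodule (ZMod 2) (Fin n → ZMod 2)), ∃ (s : ℕ) (C : Circuit (Pos m n) s),
    SymM U C ∧ (∀ φ, WidthLE k φ → (C.val φ C.out = true ↔ Pool.Agent.H60.SYM.Satisfiable φ)) ∧
    s ≤ 2 ^ Module.finrank (ZMod 2) U + m * (2 * n + 1) ^ k + 2 * m * n + 1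

/-- FINM: assembly -/
def T_FINM : Prop :=
  T_WID → T_SAT → T_VIO → T_SHIFTG → T_CROW → T_CORM → T_AVM → T_MATM → T_SUPM → T_UPM → MainM

end Pool.Agent.H42.XS
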